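import Pool.Agent.R359.PP7.Cut

/-!
MP_68f671 PP-P7: the energy comparison.
-/

set_option autoImplicit false

namespace Pool.Agent.R359.PP7

open Pool.Agent.R196.PP

section
variable {Lm M' N' L' : ℕ} {A B : Set Pt} {a b : ℝ} {φ φ' : Pt → ℝ}

open Classical in
/-- the points of the cell -/
noncomputable def TT (M' N' : ℕ) (B : Set Pt) : Finset Pt := (cell M' N').filter (· ∈ B)

theorem mem_TT {v : Pt} (hv : v ∈ TT M' N' B) : v ∈ B := by
  classical
  exact (Finset.mem_filter.1 hv).2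

theorem csum_eq (f : Pt → ℝ) : csum M' N' B f = ∑ v ∈ TT M' N' B, f v := rfl

theorem TT_card : (TT M' N' B).card ≤ M' * N' := by
  classical
  refine (Finset.card_filter_le _ _).trans ?_
  unfold cell
  rw [Finset.card_product, Int.card_Ico, Int.card_Ico]
  simp

/-- the bound for the norm of the defect -/
theorem Ctx.SF (h : Ctx Lm M' N' L' A B a b φ) :
    ∑ v ∈ TT M' N' B, ∑ e, (Ff M' N' L' A B φ v e) ^ 2 ≤
      (2 * (6 * L' + 1) * ((48 * Lm + 5) * (|a| + |b|))) ^ 2 := by
  classical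
  set K := (48 * (Lm : ℝ) + 5) * (|a| + |b|) with hK
  have hK0 : 0 ≤ K := by positivity
  set T1 := (TT M' N' B).filter (fun v => rho (red M' N' v) ≤ 3 * (L' : ℤ)) with hT1
  have h1 : ∀ v ∈ TT M' N' B, ∑ e, (Ff M' N' L' A B φ v e) ^ 2 ≤
      if rho (red M' N' v) ≤ 3 * (L' : ℤ) then 4 * K ^ 2 else 0 := by
    intro v hv
    have hvB := mem_TT hv
    split_ifs with h2
    · have h3 : ∀ e : Fin 4, (Ff M' N' L' A B φ v e) ^ 2 ≤ K ^ 2 := by
        intro e
        have := h.F_bd hvB e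
        rw [← sq_abs]
        exact pow_le_pow_left₀ (abs_nonneg _) this 2
      refine (Finset.sum_le_sum fun e _ => h3 e).trans ?_
      simp
    · have h3 : ∀ e : Fin 4, (Ff M' N' L' A B φ v e) ^ 2 = 0 := by
        intro e
        rw [h.F_zero hvB (not_le.1 h2) e]
        norm_num
      rw [Finset.sum_congr rfl fun e _ => h3 e]
      simp
  refine (Finset.sum_le_sum h1).trans ?_
  rw [← Finset.sum_filter, Finset.sum_const, nsmul_eq_mul, ← hT1]
  have h2 : T1.card ≤ (6 * L' + 1) ^ 2 := by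
    have h3 := count_le M' N' (Finset.Icc (-(3 * L' : ℤ)) (3 * L') ×ˢ Finset.Icc (-(3 * L' : ℤ)) (3 * L'))
      T1 ?_ ?_
    · rw [Finset.card_product, Int.card_Icc] at h3
      have a1 : (3 * (L' : ℤ) + 1 - -(3 * (L' : ℤ))).toNat = 6 * L' + 1 := by omega
      rw [a1, ← sq] at h3
      exact h3
    · intro v hv
      exact (Finset.mem_filter.1 (Finset.mem_filter.1 hv).1).1
    · intro v hv
      have h4 := rho_le.1 (Finset.mem_filter.1 hv).2
      obtain ⟨i, j, hij⟩ := exists_red M' N' v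
      refine ⟨i, j, ?_⟩
      have h5 : ((v.1 - i * M', v.2 - j * N') : Pt) = red M' N' v := by
        conv_lhs => rw [hij]
        unfold sh
        simp
      rw [h5, Finset.mem_product, Finset.mem_Icc, Finset.mem_Icc]
      exact ⟨abs_le.1 h4.1, abs_le.1 h4.2⟩
  have h3 : (T1.card : ℝ) ≤ (6 * L' + 1) ^ 2 := by exact_mod_cast h2
  calc (T1.card : ℝ) * (4 * K ^ 2) ≤ (6 * L' + 1) ^ 2 * (4 * K ^ 2) :=
        mul_le_mul_of_nonneg_right h3 (by positivity)
    _ = (2 * (6 * L' + 1) * K) ^ 2 := by ring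

/-- the bound for the norm of the flow -/
theorem Ctx.SJ (h : Ctx Lm M' N' L' A B a b φ) :
    ∑ v ∈ TT M' N' B, ∑ e, (Jf M' N' L' A B φ v e) ^ 2 ≤
      (8 * ((12 * Lm + 1) * (|a| + |b|)) * √((M' : ℝ) * N')) ^ 2 := by
  set G := (12 * (Lm : ℝ) + 1) * (|a| + |b|) with hG
  have hG0 : 0 ≤ G := by positivity
  have h1 : ∀ v ∈ TT M' N' B, ∑ e, (Jf M' N' L' A B φ v e) ^ 2 ≤ 64 * G ^ 2 := by
    intro v hv
    have h3 : ∀ e : Fin 4, (Jf M' N' L' A B φ v e) ^ 2 ≤ (4 * G) ^ 2 := by
      intro e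
      rw [← sq_abs]
      exact pow_le_pow_left₀ (abs_nonneg _) (h.J_bd (mem_TT hv) e) 2
    refine (Finset.sum_le_sum fun e _ => h3 e).trans ?_
    simp only [Finset.sum_const, Finset.card_univ, Fintype.card_fin, nsmul_eq_mul]
    push_cast
    linarith
  refine (Finset.sum_le_sum h1).trans ?_
  rw [Finset.sum_const, nsmul_eq_mul]
  have h2 : ((TT M' N' B).card : ℝ) ≤ (M' : ℝ) * N' := by exact_mod_cast TT_card
  have h3 : (√((M' : ℝ) * N')) ^ 2 = (M' : ℝ) * N' := Real.sq_sqrt (by positivity)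
  calc ((TT M' N' B).card : ℝ) * (64 * G ^ 2) ≤ ((M' : ℝ) * N') * (64 * G ^ 2) :=
        mul_le_mul_of_nonneg_right h2 (by positivity)
    _ = (8 * G * √((M' : ℝ) * N')) ^ 2 := by
        rw [mul_pow (8 * G), h3]
        ring

/-- the local variance of the flow and of the old environment -/
theorem Ctx.frame_part (h : Ctx Lm M' N' L' A B a b φ) :
    csum M' N' B (fun v => |Vf (Jf M' N' L' A B φ) v - Vf (grad (nb A) φ) v|) ≤
      16 * ((12 * Lm + 1) * (|a| + |b|)) ^ 2 * (8 * L') := by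
  classical
  set G := (12 * (Lm : ℝ) + 1) * (|a| + |b|) with hG
  have hG0 : 0 ≤ G := by positivity
  have hL := h.gL
  have h0 := P7'_holds M' N' L' h.bM h.bN (by omega) B
  rw [csum_eq] at h0 ⊢
  calc ∑ v ∈ TT M' N' B, |Vf (Jf M' N' L' A B φ) v - Vf (grad (nb A) φ) v|
      ≤ ∑ v ∈ TT M' N' B, 16 * G ^ 2 * Set.indicator (frame M' N' L') (fun _ => (1 : ℝ)) v := by
        refine Finset.sum_le_sum fun v hv => ?_
        have hvB := mem_TT hv
        by_cases hfr : v ∈ frame M' N' L'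
        · rw [Set.indicator_of_mem hfr, mul_one]
          have h1 : Vf (Jf M' N' L' A B φ) v ≤ 16 * G ^ 2 ∧ 0 ≤ Vf (Jf M' N' L' A B φ) v := by
            unfold Vf
            refine ⟨?_, by positivity⟩
            have h3 : ∀ e : Fin 4, (Jf M' N' L' A B φ v e) ^ 2 ≤ (4 * G) ^ 2 := by
              intro e
              rw [← sq_abs]
              exact pow_le_pow_left₀ (abs_nonneg _) (h.J_bd hvB e) 2
            have h4 := Finset.sum_le_sum fun e (_ : e ∈ (Finset.univ : Finset (Fin 4))) => h3 e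
            simp only [Finset.sum_const, Finset.card_univ, Fintype.card_fin, nsmul_eq_mul] at h4
            push_cast at h4
            linarith
          have h2 : Vf (grad (nb A) φ) v ≤ 16 * G ^ 2 ∧ 0 ≤ Vf (grad (nb A) φ) v := by
            unfold Vf
            refine ⟨?_, by positivity⟩
            have h3 : ∀ e : Fin 4, (grad (nb A) φ v e) ^ 2 ≤ G ^ 2 := by
              intro e
              rw [← sq_abs]
              exact pow_le_pow_left₀ (abs_nonneg _) (h.grad_bd (h.sub hvB) e) 2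
            have h4 := Finset.sum_le_sum fun e (_ : e ∈ (Finset.univ : Finset (Fin 4))) => h3 e
            simp only [Finset.sum_const, Finset.card_univ, Fintype.card_fin, nsmul_eq_mul] at h4
            push_cast at h4
            have h5 : 0 ≤ G ^ 2 := by positivity
            linarith
          rw [abs_le]
          constructor <;> linarith [h1.1, h1.2, h2.1, h2.2]
        · rw [Set.indicator_of_notMem hfr, mul_zero]
          rw [h.mem_frame] at hfr
          have h1 : ∀ e, Jf M' N' L' A B φ v e = grad (nb A) φ v e := by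
            intro e
            obtain ⟨i, j, hij⟩ := exists_red M' N' v
            have h2 : grad (nb A) φ v e = grad (nb A) φ (red M' N' v) e := by
              conv_lhs => rw [hij]
              rw [h.grad_sh]
            rw [h2]
            unfold Jf J0
            exact if_neg fun h3 => hfr h3.1
          have h2 : Vf (Jf M' N' L' A B φ) v = Vf (grad (nb A) φ) v := by
            unfold Vf
            simp only [h1]
          rw [h2, sub_self, abs_zero]
    _ = 16 * G ^ 2 * ∑ v ∈ TT M' N' B, Set.indicator (frame M' N' L') (fun _ => (1 : ℝ)) v := by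
        rw [Finset.mul_sum]
    _ ≤ 16 * G ^ 2 * (8 * L') := mul_le_mul_of_nonneg_left h0 (by positivity)

/-- the main comparison -/
theorem Ctx.main (h : Ctx Lm M' N' L' A B a b φ)
    (harm' : ∀ v ∈ B, ∑ e, grad (nb B) φ' v e = 0)
    (phs' : ∀ v i j, φ' (sh M' N' i j v) = φ' v + (a * (i * M') + b * (j * N'))) :
    csum M' N' B (fun v => |Vf (grad (nb B) φ') v - Vf (grad (nb A) φ) v|) ≤
      10 ^ 5 * (Lm + 1) ^ 2 * (|a| + |b|) ^ 2 * L' * √((M' : ℝ) * N') := by
  classical
  set r : Pt → ℝ := fun v => Ph M' N' L' φ v - φ' v with hr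
  set Jq := Jf M' N' L' A B φ with hJq
  set D : Pt → Fin 4 → ℝ := fun v e => grad (nb B) φ' v e - Jq v e with hD
  have sh1 : ∀ v : Pt, ((v.1 + M', v.2) : Pt) = sh M' N' 1 0 v := fun v => by
    unfold sh
    ext <;> simp
  have sh2 : ∀ v : Pt, ((v.1, v.2 + N') : Pt) = sh M' N' 0 1 v := fun v => by
    unfold sh
    ext <;> simp
  have hrper : Per M' N' r := by
    refine ⟨fun v => ?_, fun v => ?_⟩
    · rw [hr, sh1]
      simp only
      rw [h.Ph_sh, phs']
      ring
    · rw [hr, sh2]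
      simp only
      rw [h.Ph_sh, phs']
      ring
  have hgsh : ∀ i j v e, grad (nb B) φ' (sh M' N' i j v) e = grad (nb B) φ' v e := by
    intro i j v e
    unfold grad
    rw [h.nbsB, phs', phs']
    ring
  have hDper : ∀ e, Per M' N' (fun v => D v e) := by
    intro e
    refine ⟨fun v => ?_, fun v => ?_⟩
    · simp only [hD]
      rw [sh1, hgsh, hJq, h.J_sh]
    · simp only [hD]
      rw [sh2, hgsh, hJq, h.J_sh]
  have hDanti : ∀ v ∈ B, ∀ e, D (nb B v e) (e + 2) = -D v e := by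
    intro v hv e
    simp only [hD]
    rw [hJq, h.J_anti hv]
    unfold grad
    rw [h.nbiB v hv]
    ring
  have hDdiv : ∀ v ∈ B, ∑ e, D v e = 0 := by
    intro v hv
    simp only [hD]
    rw [Finset.sum_sub_distrib, harm' v hv, hJq, h.J_div hv, sub_zero]
  have horth := h.orth hrper hDper hDanti hDdiv
  rw [csum_eq] at horth
  -- norms
  set T := TT M' N' B with hT
  set SD := ∑ v ∈ T, ∑ e, (D v e) ^ 2 with hSD
  have hFD : ∀ v e, Ff M' N' L' A B φ v e = D v e + (r (nb B v e) - r v) := by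
    intro v e
    simp only [hD, hr, Ff, grad]
    ring
  have hSDle : SD ≤ (2 * (6 * L' + 1) * ((48 * Lm + 5) * (|a| + |b|))) ^ 2 := by
    refine le_trans ?_ h.SF
    have h1 : ∑ v ∈ TT M' N' B, ∑ e, (Ff M' N' L' A B φ v e) ^ 2 = SD +
        ∑ v ∈ T, ∑ e, (r (nb B v e) - r v) ^ 2 +
          2 * ∑ v ∈ T, ∑ e, (r (nb B v e) - r v) * D v e := by
      rw [hSD, ← hT, Finset.mul_sum, ← Finset.sum_add_distrib, ← Finset.sum_add_distrib]
      refine Finset.sum_congr rfl fun v _ => ?_
      rw [Finset.mul_sum, ← Finset.sum_add_distrib, ← Finset.sum_add_distrib]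
      refine Finset.sum_congr rfl fun e _ => ?_
      rw [hFD]
      ring
    rw [h1, horth]
    have h2 : 0 ≤ ∑ v ∈ T, ∑ e, (r (nb B v e) - r v) ^ 2 :=
      Finset.sum_nonneg fun v _ => Finset.sum_nonneg fun e _ => sq_nonneg _
    linarith
  have hSJ := h.SJ
  rw [← hT, ← hJq] at hSJ
  set X := √((M' : ℝ) * N') with hX
  set G := (12 * (Lm : ℝ) + 1) * (|a| + |b|) with hG
  set p := 2 * (6 * (L' : ℝ) + 1) * ((48 * Lm + 5) * (|a| + |b|)) with hp
  have hτ : 0 ≤ |a| + |b| := by positivity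
  have hG0 : 0 ≤ G := by positivity
  have hp0 : 0 ≤ p := by positivity
  have hX0 : 0 ≤ X := Real.sqrt_nonneg _
  -- Cauchy-Schwarz
  have hCS : ∑ v ∈ T, ∑ e, |D v e| * |Jq v e| ≤ p * (8 * G * X) := by
    have h1 : (∑ x ∈ T ×ˢ (Finset.univ : Finset (Fin 4)), |D x.1 x.2| * |Jq x.1 x.2|) ^ 2 ≤
        (∑ x ∈ T ×ˢ (Finset.univ : Finset (Fin 4)), |D x.1 x.2| ^ 2) *
          ∑ x ∈ T ×ˢ (Finset.univ : Finset (Fin 4)), |Jq x.1 x.2| ^ 2 :=
      Finset.sum_mul_sq_le_sq_mul_sq _ _ _
    rw [Finset.sum_product, Finset.sum_product, Finset.sum_product] at h1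
    simp only [sq_abs] at h1
    have h2 : (∑ v ∈ T, ∑ e, |D v e| * |Jq v e|) ^ 2 ≤ (p * (8 * G * X)) ^ 2 := by
      refine h1.trans ?_
      rw [mul_pow]
      exact mul_le_mul hSDle hSJ (Finset.sum_nonneg fun v _ => Finset.sum_nonneg fun e _ =>
        sq_nonneg _) (sq_nonneg _)
    exact (sq_le_sq₀ (Finset.sum_nonneg fun v _ => Finset.sum_nonneg fun e _ =>
      mul_nonneg (abs_nonneg _) (abs_nonneg _)) (by positivity)).1 h2
  have hV : ∑ v ∈ T, |Vf (grad (nb B) φ') v - Vf Jq v| ≤ (1 / 4) * (p ^ 2 + 2 * (p * (8 * G * X))) := by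
    have h1 : ∀ v ∈ T, |Vf (grad (nb B) φ') v - Vf Jq v| ≤
        (1 / 4) * (∑ e, (D v e) ^ 2 + 2 * ∑ e, |D v e| * |Jq v e|) := by
      intro v _
      unfold Vf
      rw [← mul_sub, abs_mul, abs_of_nonneg (by norm_num : (0 : ℝ) ≤ 1 / 4)]
      refine mul_le_mul_of_nonneg_left ?_ (by norm_num)
      rw [← Finset.sum_sub_distrib, Finset.mul_sum, ← Finset.sum_add_distrib]
      refine (Finset.abs_sum_le_sum_abs _ _).trans (Finset.sum_le_sum fun e _ => ?_)
      have h2 : grad (nb B) φ' v e ^ 2 - Jq v e ^ 2 = D v e ^ 2 + 2 * (D v e * Jq v e) := by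
        simp only [hD]
        ring
      rw [h2]
      refine (abs_add_le _ _).trans ?_
      rw [abs_mul, abs_mul, abs_two, abs_of_nonneg (sq_nonneg (D v e))]
    refine (Finset.sum_le_sum h1).trans ?_
    rw [← Finset.mul_sum, Finset.sum_add_distrib, ← Finset.mul_sum]
    refine mul_le_mul_of_nonneg_left ?_ (by norm_num)
    linarith
  have hfp := h.frame_part
  rw [csum_eq, ← hT, ← hJq, ← hG] at hfp
  rw [csum_eq, ← hT]
  have htot : ∑ v ∈ T, |Vf (grad (nb B) φ') v - Vf (grad (nb A) φ) v| ≤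
      (1 / 4) * (p ^ 2 + 2 * (p * (8 * G * X))) + 16 * G ^ 2 * (8 * L') := by
    calc ∑ v ∈ T, |Vf (grad (nb B) φ') v - Vf (grad (nb A) φ) v|
        ≤ ∑ v ∈ T, (|Vf (grad (nb B) φ') v - Vf Jq v| + |Vf Jq v - Vf (grad (nb A) φ) v|) :=
          Finset.sum_le_sum fun v _ => abs_sub_le _ _ _
      _ ≤ _ := by
          rw [Finset.sum_add_distrib]
          exact add_le_add hV hfp
  refine htot.trans ?_
  -- numbers
  have hL := h.gL
  have hL1 : (1 : ℝ) ≤ L' := by
    have : 1 ≤ L' := by omega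
    exact_mod_cast this
  have hXL : 8 * (L' : ℝ) ≤ X := by
    rw [hX]
    apply Real.le_sqrt_of_sq_le
    have h1 : 8 * (L' : ℝ) ≤ M' := by
      have := h.bM
      have : 8 * L' ≤ M' := by omega
      exact_mod_cast this
    have h2 : 8 * (L' : ℝ) ≤ N' := by
      have := h.bN
      have : 8 * L' ≤ N' := by omega
      exact_mod_cast this
    rw [sq]
    exact mul_le_mul h1 h2 (by positivity) (by positivity)
  set K := ((Lm : ℝ) + 1) * (|a| + |b|) with hK
  have hK0 : 0 ≤ K := by positivity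
  have hpK : p ≤ 672 * (L' * K) := by
    have h1 : (6 * (L' : ℝ) + 1) ≤ 7 * L' := by linarith
    have h2 : (48 * (Lm : ℝ) + 5) * (|a| + |b|) ≤ 48 * K := by
      rw [hK]
      nlinarith
    calc p = 2 * ((6 * (L' : ℝ) + 1) * ((48 * Lm + 5) * (|a| + |b|))) := by rw [hp]; ring
      _ ≤ 2 * ((7 * L') * (48 * K)) := by
          refine mul_le_mul_of_nonneg_left ?_ (by norm_num)
          exact mul_le_mul h1 h2 (by positivity) (by positivity)
      _ = 672 * (L' * K) := by ring
  have hGK : G ≤ 12 * K := by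
    rw [hG, hK]
    nlinarith
  have hKs : 0 ≤ K ^ 2 := sq_nonneg K
  have hLX : (L' : ℝ) * (8 * L') ≤ L' * X := mul_le_mul_of_nonneg_left hXL (by positivity)
  have hX1 : 1 ≤ X := by linarith
  have b1 : p ^ 2 ≤ 451584 / 8 * (L' * X * K ^ 2) := by
    calc p ^ 2 ≤ (672 * (L' * K)) ^ 2 := pow_le_pow_left₀ hp0 hpK 2
      _ = 451584 / 8 * (L' * (8 * L') * K ^ 2) := by ring
      _ ≤ 451584 / 8 * (L' * X * K ^ 2) := by
          refine mul_le_mul_of_nonneg_left ?_ (by norm_num)
          exact mul_le_mul_of_nonneg_right hLX hKs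
  have b2 : p * (8 * G * X) ≤ 64512 * (L' * X * K ^ 2) := by
    calc p * (8 * G * X) ≤ (672 * (L' * K)) * (8 * (12 * K) * X) := by
          refine mul_le_mul hpK ?_ (by positivity) (by positivity)
          refine mul_le_mul_of_nonneg_right ?_ hX0
          linarith
      _ = 64512 * (L' * X * K ^ 2) := by ring
  have b3 : 16 * G ^ 2 * (8 * L') ≤ 18432 * (L' * X * K ^ 2) := by
    have h1 : G ^ 2 ≤ (12 * K) ^ 2 := pow_le_pow_left₀ hG0 hGK 2
    have h2 : (L' : ℝ) * K ^ 2 ≤ L' * X * K ^ 2 := by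
      refine mul_le_mul_of_nonneg_right ?_ hKs
      nlinarith
    calc 16 * G ^ 2 * (8 * L') = 128 * (L' * G ^ 2) := by ring
      _ ≤ 128 * (L' * (12 * K) ^ 2) := by
          refine mul_le_mul_of_nonneg_left ?_ (by norm_num)
          exact mul_le_mul_of_nonneg_left h1 (by positivity)
      _ = 18432 * (L' * K ^ 2) := by ring
      _ ≤ _ := by linarith
  have b4 : 0 ≤ L' * X * K ^ 2 := by positivity
  calc (1 / 4) * (p ^ 2 + 2 * (p * (8 * G * X))) + 16 * G ^ 2 * (8 * L')
      ≤ 10 ^ 5 * (L' * X * K ^ 2) := by linarith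
    _ = _ := by
        rw [hK]
        ring

end

/-! ### the context from the hypotheses -/

theorem iter_prop {p : ℤ → Prop} {m : ℤ} (h : ∀ x, p (x + m) ↔ p x) (i x : ℤ) :
    p (x + i * m) ↔ p x := by
  induction i using Int.induction_on with
  | zero => simp
  | succ i ih =>
    have h1 := h (x + i * m)
    rw [← ih, ← h1]
    ring_nf
  | pred i ih =>
    have h1 := h (x + (-(i : ℤ) - 1) * m)
    rw [← ih, ← h1]
    ring_nf

theorem iter_real {f : ℤ → ℝ} {m : ℤ} {c : ℝ} (h : ∀ x, f (x + m) = f x + c) (i x : ℤ) :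
    f (x + i * m) = f x + i * c := by
  induction i using Int.induction_on with
  | zero => simp
  | succ i ih =>
    have h1 := h (x + i * m)
    have e1 : x + ((i : ℤ) + 1) * m = x + i * m + m := by ring
    rw [e1, h1, ih]
    push_cast
    ring
  | pred i ih =>
    have h1 := h (x + (-(i : ℤ) - 1) * m)
    have e1 : x + (-(i : ℤ) - 1) * m + m = x + -(i : ℤ) * m := by ring
    rw [e1, ih] at h1
    push_cast at h1 ⊢
    linarith

theorem hc_shift {M N M' N' : ℕ} (hM : M ∣ M') (hN : N ∣ N') {A : Set Pt} {a b : ℝ} {φ : Pt → ℝ}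
    (h : HC M N A a b φ) (v : Pt) (i j : ℤ) :
    φ (sh M' N' i j v) = φ v + (a * (i * M') + b * (j * N')) := by
  obtain ⟨k, rfl⟩ := hM
  obtain ⟨l, rfl⟩ := hN
  have h1 : ∀ y : ℤ, ∀ i x : ℤ, φ (x + i * M, y) = φ (x, y) + i * (a * M) := fun y =>
    iter_real (f := fun x => φ (x, y)) (fun x => h.trM (x, y))
  have h2 : ∀ x : ℤ, ∀ j y : ℤ, φ (x, y + j * N) = φ (x, y) + j * (b * N) := fun x =>
    iter_real (f := fun y => φ (x, y)) (fun y => h.trN (x, y))
  have e1 : sh (M * k) (N * l) i j v = (v.1 + (i * k) * M, v.2 + (j * l) * N) := by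
    unfold sh
    ext
    · push_cast
      ring
    · push_cast
      ring
  rw [e1, h1, h2]
  push_cast
  ring

theorem P7_holds (h3a : P3a) (h3b : P3b) (h5a : P5a) (h5b : P5b) (h5c : P5c) : P7 := by
  intro M N Lm M' N' L' A hA hS a b φ φ' hφ hφ' hbd
  have hA' := h5a M N Lm M' N' L' A hA hS
  obtain ⟨a1, a2, a3, a4, a5⟩ := h3a M N Lm A hA
  obtain ⟨b1, b2, b3, b4, b5⟩ := h3a M' N' L' _ hA'
  obtain ⟨c1, c2⟩ := h5b M N Lm M' N' L' A hA hS
  have hctx : Ctx Lm M' N' L' A (A \ hole M' N' L') a b φ := by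
    refine
      { oM := hS.oddM
        oN := hS.oddN
        bM := hS.bigM
        bN := hS.bigN
        gL := hS.growL
        sub := Set.sdiff_subset
        nbA := a1
        nbk := ?_
        nbs := ?_
        nbn := a4
        nbi := a5
        nbB := b1
        nbsB := fun v e i j => b3 v e i j
        nbiB := b5
        memB := ?_
        pres := h3b M' N' L' _ hA'
        off := c1
        frm := c2
        near := h5c M N Lm M' N' L' A hA hS
        harm := hφ.harm
        phs := hc_shift hS.dM hS.dN hφ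
        odd := hφ.odd
        bd := hbd }
    · intro v e
      obtain ⟨k, hk1, hk2, hk3, -⟩ := a2 v e
      exact ⟨k, hk1, hk2, hk3⟩
    · intro v e i j
      obtain ⟨k, hk⟩ := hS.dM
      obtain ⟨l, hl⟩ := hS.dN
      have h1 := a3 v e (i * k) (j * l)
      have e1 : ∀ w : Pt, sh M' N' i j w = (w.1 + (i * k) * M, w.2 + (j * l) * N) := by
        intro w
        unfold sh
        rw [hk, hl]
        ext
        · push_cast
          ring
        · push_cast
          ring
      rw [e1, e1, h1]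
    · intro v i j
      have h1 : ∀ y : ℤ, ∀ i x : ℤ, ((x + i * M', y) : Pt) ∈ A \ hole M' N' L' ↔
          ((x, y) : Pt) ∈ A \ hole M' N' L' := fun y =>
        iter_prop (p := fun x => ((x, y) : Pt) ∈ A \ hole M' N' L') (fun x => hA'.perM (x, y))
      have h2 : ∀ x : ℤ, ∀ j y : ℤ, ((x, y + j * N') : Pt) ∈ A \ hole M' N' L' ↔
          ((x, y) : Pt) ∈ A \ hole M' N' L' := fun x =>
        iter_prop (p := fun y => ((x, y) : Pt) ∈ A \ hole M' N' L') (fun y => hA'.perN (x, y))
      unfold sh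
      rw [h1, h2]
  exact hctx.main hφ'.harm (hc_shift (dvd_refl M') (dvd_refl N') hφ')

end Pool.Agent.R359.PP7
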