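import Pool.Agent.R196.PP.Pieces

/-!
MP_68f671 PP-P7: reduction to the fundamental cell, the context, the flow.
-/

set_option autoImplicit false

namespace Pool.Agent.R359.PP7

open Pool.Agent.R196.PP

/-- translation by a period -/
def sh (M' N' : ℕ) (i j : ℤ) (v : Pt) : Pt := (v.1 + i * M', v.2 + j * N')

/-- the representative of `v` nearest to the origin -/
def red (M' N' : ℕ) (v : Pt) : Pt := (Int.bmod v.1 M', Int.bmod v.2 N')

theorem red_sh (M' N' : ℕ) (i j : ℤ) (v : Pt) : red M' N' (sh M' N' i j v) = red M' N' v := by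
  simp [red, sh]

theorem exists_red (M' N' : ℕ) (v : Pt) : ∃ i j : ℤ, v = sh M' N' i j (red M' N' v) := by
  refine ⟨Int.bdiv v.1 M', Int.bdiv v.2 N', ?_⟩
  unfold sh red
  ext
  · exact (Int.bmod_add_bdiv' v.1 M').symm
  · exact (Int.bmod_add_bdiv' v.2 N').symm

theorem bmod_small {x : ℤ} {m : ℕ} (hx : 2 * |x| < m) : Int.bmod x m = x := by
  rw [abs_eq_max_neg] at hx
  exact Int.bmod_eq_of_le_mul_two (by omega) (by omega)

theorem bmod_lt' {x : ℤ} {m : ℕ} (hm : Odd m) : 2 * |Int.bmod x m| < m := by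
  obtain ⟨k, hk⟩ := hm
  have h1 := @Int.bmod_lt x m (by omega)
  have h2 := @Int.le_bmod x m (by omega)
  rw [abs_eq_max_neg]
  omega

theorem red_small {M' N' : ℕ} {u : Pt} (h1 : 2 * |u.1| < M') (h2 : 2 * |u.2| < N') :
    red M' N' u = u := by
  unfold red
  rw [bmod_small h1, bmod_small h2]

theorem sh_sh (M' N' : ℕ) (i j i' j' : ℤ) (v : Pt) :
    sh M' N' i j (sh M' N' i' j' v) = sh M' N' (i + i') (j + j') v := by
  unfold sh
  ext
  · simp only
    ring
  · simp only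
    ring

theorem sh_zero (M' N' : ℕ) (v : Pt) : sh M' N' 0 0 v = v := by
  unfold sh
  simp

/-- a step of the step vector -/
theorem stp0 : stp 0 = (1, 1) := rfl
theorem stp1 : stp 1 = (1, -1) := rfl
theorem stp2 : stp 2 = (-1, -1) := rfl
theorem stp3 : stp 3 = (-1, 1) := rfl

theorem stp_neg (e : Fin 4) : stp (e + 2) = -stp e := by
  fin_cases e <;> rfl

/-- the max of the absolute values -/
def rho (u : Pt) : ℤ := max |u.1| |u.2|

theorem rho_lt {u : Pt} {c : ℤ} : rho u < c ↔ |u.1| < c ∧ |u.2| < c := max_lt_iff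

theorem rho_le {u : Pt} {c : ℤ} : rho u ≤ c ↔ |u.1| ≤ c ∧ |u.2| ≤ c := max_le_iff

theorem rho_neg (u : Pt) : rho (-u) = rho u := by
  simp [rho]

/-- the context -/
structure Ctx (Lm M' N' L' : ℕ) (A B : Set Pt) (a b : ℝ) (φ : Pt → ℝ) : Prop where
  oM : Odd M'
  oN : Odd N'
  bM : 8 * L' + 5 ≤ M'
  bN : 8 * L' + 5 ≤ N'
  gL : 25 * Lm + 4 ≤ L'
  sub : B ⊆ A
  nbA : ∀ v e, nb A v e ∈ A
  nbk : ∀ v e, ∃ k : ℕ, 1 ≤ k ∧ k ≤ 2 * Lm + 1 ∧ nb A v e = v + (k : ℤ) • stp e
  nbs : ∀ v e i j, nb A (sh M' N' i j v) e = sh M' N' i j (nb A v e)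
  nbn : ∀ v e, nb A (-v) (e + 2) = -nb A v e
  nbi : ∀ v ∈ A, ∀ e, nb A (nb A v e) (e + 2) = v
  nbB : ∀ v e, nb B v e ∈ B
  nbsB : ∀ v e i j, nb B (sh M' N' i j v) e = sh M' N' i j (nb B v e)
  nbiB : ∀ v ∈ B, ∀ e, nb B (nb B v e) (e + 2) = v
  memB : ∀ v i j, sh M' N' i j v ∈ B ↔ v ∈ B
  pres : ∀ f : Pt → ℝ, Per M' N' f → ∀ e : Fin 4,
    csum M' N' B (fun v => f (nb B v e)) = csum M' N' B f
  off : ∀ v ∈ B, v ∉ frame M' N' L' → ∀ e, nb B v e = nb A v e
  frm : frame M' N' L' ⊆ B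
  near : ∀ v : Pt, max |v.1| |v.2| = (L' : ℤ) → ∀ e : Fin 4,
      (((stp e).1 * v.1 = L' ∨ (stp e).2 * v.2 = L') →
        nb B v e = v + stp e ∧ nb A v e = v + stp e) ∧
      (((stp e).1 * v.1 = -L' ∧ |v.2| < L') →
        nb B v e = (-((stp e).1 * (stp e).2 * v.2), (stp e).2 * L')) ∧
      (((stp e).2 * v.2 = -L' ∧ |v.1| < L') →
        nb B v e = ((stp e).1 * L', -((stp e).1 * (stp e).2 * v.1))) ∧
      (((stp e).1 * v.1 = -L' ∧ (stp e).2 * v.2 = -L') → nb B v e = -v)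
  harm : ∀ v ∈ A, ∑ e, grad (nb A) φ v e = 0
  phs : ∀ v i j, φ (sh M' N' i j v) = φ v + (a * (i * M') + b * (j * N'))
  odd : ∀ v, φ (-v) = -φ v
  bd : ∀ v ∈ A, |φ v - (a * v.1 + b * v.2)| ≤ 5 * Lm * (|a| + |b|)

/-- outward directions -/
def OutW (L' : ℕ) (u : Pt) (e : Fin 4) : Prop := (stp e).1 * u.1 = L' ∨ (stp e).2 * u.2 = L'

/-- inward directions at the frame centred at the origin -/
def InW (L' : ℕ) (u : Pt) (e : Fin 4) : Prop := rho u = (L' : ℤ) ∧ ¬ OutW L' u e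

open Classical in
/-- the outflow -/
noncomputable def outf (L' : ℕ) (A : Set Pt) (φ : Pt → ℝ) (u : Pt) : ℝ :=
  ∑ e, if OutW L' u e then grad (nb A) φ u e else 0

open Classical in
/-- the flow near the origin -/
noncomputable def J0 (L' : ℕ) (A B : Set Pt) (φ : Pt → ℝ) (u : Pt) (e : Fin 4) : ℝ :=
  if InW L' u e then (outf L' A φ (nb B u e) - outf L' A φ u) / 2 else grad (nb A) φ u e

/-- the flow -/
noncomputable def Jf (M' N' L' : ℕ) (A B : Set Pt) (φ : Pt → ℝ) (v : Pt) (e : Fin 4) : ℝ :=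
  J0 L' A B φ (red M' N' v) e

section
variable {Lm M' N' L' : ℕ} {A B : Set Pt} {a b : ℝ} {φ : Pt → ℝ}

theorem Ctx.red_of (h : Ctx Lm M' N' L' A B a b φ) {u : Pt} (hu : rho u ≤ 4 * L') :
    red M' N' u = u := by
  rw [rho_le] at hu
  have h1 := h.bM
  have h2 := h.bN
  exact red_small (by omega) (by omega)

theorem Ctx.red_lt (h : Ctx Lm M' N' L' A B a b φ) (v : Pt) :
    2 * |(red M' N' v).1| < M' ∧ 2 * |(red M' N' v).2| < N' :=
  ⟨bmod_lt' h.oM, bmod_lt' h.oN⟩

theorem Ctx.red_red (h : Ctx Lm M' N' L' A B a b φ) (v : Pt) :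
    red M' N' (red M' N' v) = red M' N' v :=
  red_small (h.red_lt v).1 (h.red_lt v).2

theorem Ctx.mem_frame (h : Ctx Lm M' N' L' A B a b φ) (v : Pt) :
    v ∈ frame M' N' L' ↔ rho (red M' N' v) = L' := by
  constructor
  · rintro ⟨i, j, hij⟩
    have h1 : rho (v.1 - i * M', v.2 - j * N') = L' := hij
    have h2 : red M' N' (v.1 - i * M', v.2 - j * N') = (v.1 - i * M', v.2 - j * N') :=
      h.red_of (by omega)
    have h3 : red M' N' v = red M' N' (v.1 - i * M', v.2 - j * N') := by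
      simp [red]
    rw [h3, h2, h1]
  · intro h1
    obtain ⟨i, j, hij⟩ := exists_red M' N' v
    refine ⟨i, j, ?_⟩
    rw [← h1]
    unfold rho
    rw [hij, red_sh, h.red_red]
    simp [sh]

theorem stp_cases (e : Fin 4) : ∃ s1 s2 : ℤ, stp e = (s1, s2) ∧ stp (e + 2) = (-s1, -s2) ∧
    (s1 = 1 ∨ s1 = -1) ∧ (s2 = 1 ∨ s2 = -1) := by
  fin_cases e
  · exact ⟨1, 1, rfl, rfl, Or.inl rfl, Or.inl rfl⟩
  · exact ⟨1, -1, rfl, rfl, Or.inl rfl, Or.inr rfl⟩
  · exact ⟨-1, -1, rfl, rfl, Or.inr rfl, Or.inr rfl⟩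
  · exact ⟨-1, 1, rfl, rfl, Or.inr rfl, Or.inl rfl⟩

theorem Ctx.jump (h : Ctx Lm M' N' L' A B a b φ) {u : Pt} {e : Fin 4} (hu : InW L' u e) :
    InW L' (nb B u e) (e + 2) ∧ u ∈ B := by
  obtain ⟨h1, h2⟩ := hu
  have hn := h.near u h1 e
  have hL := h.gL
  have hfr : u ∈ frame M' N' L' := by
    rw [h.mem_frame, h.red_of (by omega), h1]
  refine ⟨?_, h.frm hfr⟩
  unfold OutW at h2
  rw [not_or] at h2
  obtain ⟨-, n1, n2, n3⟩ := hn
  unfold rho at h1
  rw [abs_eq_max_neg, abs_eq_max_neg] at h1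
  rw [abs_eq_max_neg] at n1 n2
  obtain ⟨x, y⟩ := u
  obtain ⟨s1, s2, hs, hs', hs1, hs2⟩ := stp_cases e
  rw [hs] at h2 n1 n2 n3
  unfold InW OutW rho
  rw [hs', abs_eq_max_neg, abs_eq_max_neg]
  simp only at h1 h2 n1 n2 n3 ⊢
  rcases hs1 with rfl | rfl <;> rcases hs2 with rfl | rfl
  all_goals
    rcases (by omega : (x = L' ∨ x = -L') ∧ (y = L' ∨ y = -L') ∨
      (x = L' ∨ x = -L') ∧ max y (-y) < L' ∨ (y = L' ∨ y = -L') ∧ max x (-x) < L') with
      hc | hc | hc
  all_goals first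
    | (rw [n3 (by omega)]; simp only [Prod.fst_neg, Prod.snd_neg]; omega)
    | (rw [n1 (by omega)]; simp only; omega)
    | (rw [n2 (by omega)]; simp only; omega)

/-- not inward: the neighbours agree -/
theorem Ctx.same (h : Ctx Lm M' N' L' A B a b φ) {u : Pt} (hred : red M' N' u = u) (hu : u ∈ B)
    {e : Fin 4} (hin : ¬ InW L' u e) : nb B u e = nb A u e := by
  by_cases h1 : rho u = (L' : ℤ)
  · have h2 : OutW L' u e := by
      by_contra h3
      exact hin ⟨h1, h3⟩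
    obtain ⟨h3, h4⟩ := (h.near u h1 e).1 h2
    rw [h3, h4]
  · refine h.off u hu ?_ e
    rw [h.mem_frame, hred]
    exact h1

theorem Ctx.grad_sh (h : Ctx Lm M' N' L' A B a b φ) (i j : ℤ) (v : Pt) (e : Fin 4) :
    grad (nb A) φ (sh M' N' i j v) e = grad (nb A) φ v e := by
  unfold grad
  rw [h.nbs, h.phs, h.phs]
  ring

theorem Ctx.grad_neg (h : Ctx Lm M' N' L' A B a b φ) (v : Pt) (e : Fin 4) :
    grad (nb A) φ (-v) (e + 2) = -grad (nb A) φ v e := by
  unfold grad
  rw [h.nbn, h.odd, h.odd]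
  ring

theorem Ctx.grad_inv (h : Ctx Lm M' N' L' A B a b φ) {v : Pt} (hv : v ∈ A) (e : Fin 4) :
    grad (nb A) φ (nb A v e) (e + 2) = -grad (nb A) φ v e := by
  unfold grad
  rw [h.nbi v hv]
  ring

theorem Ctx.grad_bd (h : Ctx Lm M' N' L' A B a b φ) {v : Pt} (hv : v ∈ A) (e : Fin 4) :
    |grad (nb A) φ v e| ≤ (12 * Lm + 1) * (|a| + |b|) := by
  unfold grad
  obtain ⟨k, hk1, hk2, hk⟩ := h.nbk v e
  have h1 := h.bd v hv
  have h2 := h.bd _ (h.nbA v e)
  have e1 : φ (nb A v e) - φ v = (φ (nb A v e) - (a * (nb A v e).1 + b * (nb A v e).2)) -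
      (φ v - (a * v.1 + b * v.2)) + (k : ℝ) * (a * (stp e).1 + b * (stp e).2) := by
    rw [hk]
    simp only [Prod.fst_add, Prod.snd_add, Prod.smul_fst, Prod.smul_snd, smul_eq_mul]
    push_cast
    ring
  have h3 : |a * ((stp e).1 : ℝ) + b * ((stp e).2 : ℝ)| ≤ |a| + |b| := by
    refine (abs_add_le _ _).trans ?_
    rw [abs_mul, abs_mul]
    have : |((stp e).1 : ℝ)| = 1 ∧ |((stp e).2 : ℝ)| = 1 := by
      fin_cases e <;> simp [stp]
    rw [this.1, this.2]
    linarith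
  have h4 : |(k : ℝ) * (a * (stp e).1 + b * (stp e).2)| ≤ (2 * Lm + 1) * (|a| + |b|) := by
    rw [abs_mul, abs_of_nonneg (Nat.cast_nonneg k)]
    have : (k : ℝ) ≤ 2 * Lm + 1 := by exact_mod_cast hk2
    exact mul_le_mul this h3 (abs_nonneg _) (by positivity)
  rw [e1]
  calc _ ≤ |(φ (nb A v e) - (a * (nb A v e).1 + b * (nb A v e).2)) -
      (φ v - (a * v.1 + b * v.2))| + |(k : ℝ) * (a * (stp e).1 + b * (stp e).2)| := abs_add_le _ _
    _ ≤ (5 * Lm * (|a| + |b|) + 5 * Lm * (|a| + |b|)) + (2 * Lm + 1) * (|a| + |b|) :=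
        add_le_add ((abs_sub _ _).trans (add_le_add h2 h1)) h4
    _ = _ := by ring

theorem outW_neg (u : Pt) (e : Fin 4) : OutW L' (-u) (e + 2) ↔ OutW L' u e := by
  unfold OutW
  rw [stp_neg]
  simp

theorem Ctx.outf_neg (h : Ctx Lm M' N' L' A B a b φ) (u : Pt) :
    outf L' A φ (-u) = - outf L' A φ u := by
  classical
  unfold outf
  rw [← Finset.sum_neg_distrib]
  have hre : ∀ F : Fin 4 → ℝ, ∑ e, F e = ∑ e, F (e + 2) := fun F =>
    (Fintype.sum_equiv (Equiv.addRight (2 : Fin 4)) (fun e => F (e + 2)) F (fun _ => rfl)).symm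
  rw [hre]
  refine Finset.sum_congr rfl fun e _ => ?_
  by_cases h1 : OutW L' u e
  · rw [if_pos h1, if_pos ((outW_neg u e).2 h1), h.grad_neg]
  · rw [if_neg h1, if_neg (fun h2 => h1 ((outW_neg u e).1 h2)), neg_zero]

theorem Ctx.outf_bd (h : Ctx Lm M' N' L' A B a b φ) {u : Pt} (hu : u ∈ A) :
    |outf L' A φ u| ≤ 4 * ((12 * Lm + 1) * (|a| + |b|)) := by
  classical
  unfold outf
  refine (Finset.abs_sum_le_sum_abs _ _).trans ?_
  have h1 : ∀ e : Fin 4, |if OutW L' u e then grad (nb A) φ u e else 0| ≤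
      (12 * Lm + 1) * (|a| + |b|) := by
    intro e
    split_ifs
    · exact h.grad_bd hu e
    · rw [abs_zero]
      positivity
  refine (Finset.sum_le_sum fun e _ => h1 e).trans ?_
  simp

/-! ### the flow -/

theorem Ctx.J_sh (h : Ctx Lm M' N' L' A B a b φ) (i j : ℤ) (v : Pt) (e : Fin 4) :
    Jf M' N' L' A B φ (sh M' N' i j v) e = Jf M' N' L' A B φ v e := by
  unfold Jf
  rw [red_sh]

theorem Ctx.J_bd (h : Ctx Lm M' N' L' A B a b φ) {v : Pt} (hv : v ∈ B) (e : Fin 4) :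
    |Jf M' N' L' A B φ v e| ≤ 4 * ((12 * Lm + 1) * (|a| + |b|)) := by
  classical
  obtain ⟨i, j, hij⟩ := exists_red M' N' v
  have hu : red M' N' v ∈ B := by
    rw [hij, h.memB] at hv
    exact hv
  unfold Jf J0
  split_ifs with h1
  · have h2 := h.outf_bd (h.sub hu)
    have h3 := h.outf_bd (h.sub (h.nbB (red M' N' v) e))
    rw [abs_div, abs_two, div_le_iff₀ two_pos]
    refine (abs_sub _ _).trans ?_
    linarith
  · have := h.grad_bd (h.sub hu) e
    have h0 : 0 ≤ (12 * Lm + 1) * (|a| + |b|) := by positivity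
    linarith

theorem Ctx.J_anti (h : Ctx Lm M' N' L' A B a b φ) {v : Pt} (hv : v ∈ B) (e : Fin 4) :
    Jf M' N' L' A B φ (nb B v e) (e + 2) = - Jf M' N' L' A B φ v e := by
  classical
  obtain ⟨i, j, hij⟩ := exists_red M' N' v
  set u := red M' N' v with hu
  have hured : red M' N' u = u := h.red_red v
  have huB : u ∈ B := by
    rw [hij, h.memB] at hv
    exact hv
  have e1 : Jf M' N' L' A B φ v e = J0 L' A B φ u e := rfl
  have e2 : Jf M' N' L' A B φ (nb B v e) (e + 2) =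
      J0 L' A B φ (red M' N' (nb B u e)) (e + 2) := by
    unfold Jf
    rw [hij, h.nbsB, red_sh]
  have ee : e + 2 + 2 = e := by
    rw [add_assoc]
    simp
  rw [e1, e2]
  by_cases hin : InW L' u e
  · obtain ⟨h1, -⟩ := h.jump hin
    have hL := h.gL
    have h2 : red M' N' (nb B u e) = nb B u e := h.red_of (by rw [h1.1]; omega)
    rw [h2]
    unfold J0
    rw [if_pos hin, if_pos h1, h.nbiB u huB e]
    ring
  · have hs := h.same hured huB hin
    obtain ⟨i', j', hij'⟩ := exists_red M' N' (nb B u e)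
    set w := red M' N' (nb B u e) with hw
    have hwB : w ∈ B := by
      have := h.nbB u e
      rw [hij', h.memB] at this
      exact this
    have hin' : ¬ InW L' w (e + 2) := by
      intro hc
      obtain ⟨h1, -⟩ := h.jump hc
      have h2 : sh M' N' i' j' (nb B w (e + 2)) = u := by
        rw [← h.nbsB, ← hij', h.nbiB u huB e]
      have hL := h.gL
      have h3 : red M' N' (nb B w (e + 2)) = nb B w (e + 2) := h.red_of (by rw [h1.1]; omega)
      have h4 : nb B w (e + 2) = u := by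
        rw [← h3, ← hured, ← h2, red_sh]
      rw [h4, ee] at h1
      exact hin h1
    unfold J0
    rw [if_neg hin, if_neg hin']
    have h5 : grad (nb A) φ w (e + 2) = grad (nb A) φ (nb B u e) (e + 2) := by
      conv_rhs => rw [hij']
      rw [h.grad_sh]
    rw [h5, hs, h.grad_inv (h.sub huB)]

theorem J0_out {u : Pt} (h1 : max |u.1| |u.2| = (L' : ℤ)) {e : Fin 4} (ho : OutW L' u e) :
    J0 L' A B φ u e = grad (nb A) φ u e := by
  unfold J0
  exact if_neg fun h => h.2 ho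

theorem J0_in {u : Pt} (h1 : max |u.1| |u.2| = (L' : ℤ)) {e : Fin 4} (ho : ¬ OutW L' u e) :
    J0 L' A B φ u e = (outf L' A φ (nb B u e) - outf L' A φ u) / 2 := by
  unfold J0
  exact if_pos ⟨h1, ho⟩

theorem Ctx.J0_div (h : Ctx Lm M' N' L' A B a b φ) {u : Pt} (h1 : max |u.1| |u.2| = (L' : ℤ)) :
    ∑ e, J0 L' A B φ u e = 0 := by
  have hL := h.gL
  obtain ⟨x, y⟩ := u
  have h2 := h1
  simp only at h2
  rw [abs_eq_max_neg, abs_eq_max_neg] at h2
  rcases (by omega : (x = L' ∧ -(L' : ℤ) < y ∧ y < L') ∨ (x = -L' ∧ -(L' : ℤ) < y ∧ y < L') ∨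
    (y = L' ∧ -(L' : ℤ) < x ∧ x < L') ∨ (y = -L' ∧ -(L' : ℤ) < x ∧ x < L') ∨
    (x = L' ∧ y = L') ∨ (x = L' ∧ y = -L') ∨ (x = -L' ∧ y = L') ∨ (x = -L' ∧ y = -L')) with
    hc | hc | hc | hc | hc | hc | hc | hc
  · have o0 : OutW L' (x, y) 0 := by unfold OutW; rw [stp0]; simp only; omega
    have o1 : OutW L' (x, y) 1 := by unfold OutW; rw [stp1]; simp only; omega
    have o2 : ¬ OutW L' (x, y) 2 := by unfold OutW; rw [stp2]; simp only; omega
    have o3 : ¬ OutW L' (x, y) 3 := by unfold OutW; rw [stp3]; simp only; omega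
    have w2 := (h.near (x, y) h1 2).2.1 ⟨by rw [stp2]; simp only; omega, abs_lt.2 ⟨by simp only; omega, by simp only; omega⟩⟩
    rw [stp2] at w2
    have w3 := (h.near (x, y) h1 3).2.1 ⟨by rw [stp3]; simp only; omega, abs_lt.2 ⟨by simp only; omega, by simp only; omega⟩⟩
    rw [stp3] at w3
    have w : nb B (x, y) 3 = -nb B (x, y) 2 := by rw [w2, w3]; exact Prod.ext (by simp only [Prod.fst_neg]; ring) (by simp only [Prod.snd_neg]; ring)
    rw [Fin.sum_univ_four, J0_out h1 o0, J0_out h1 o1, J0_in h1 o2, J0_in h1 o3]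
    have ho : outf L' A φ (x, y) = _ := rfl
    conv_rhs at ho => unfold outf
    rw [Fin.sum_univ_four, if_pos o0, if_pos o1, if_neg o2, if_neg o3] at ho
    rw [w, h.outf_neg]
    linarith
  · have o0 : ¬ OutW L' (x, y) 0 := by unfold OutW; rw [stp0]; simp only; omega
    have o1 : ¬ OutW L' (x, y) 1 := by unfold OutW; rw [stp1]; simp only; omega
    have o2 : OutW L' (x, y) 2 := by unfold OutW; rw [stp2]; simp only; omega
    have o3 : OutW L' (x, y) 3 := by unfold OutW; rw [stp3]; simp only; omega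
    have w0 := (h.near (x, y) h1 0).2.1 ⟨by rw [stp0]; simp only; omega, abs_lt.2 ⟨by simp only; omega, by simp only; omega⟩⟩
    rw [stp0] at w0
    have w1 := (h.near (x, y) h1 1).2.1 ⟨by rw [stp1]; simp only; omega, abs_lt.2 ⟨by simp only; omega, by simp only; omega⟩⟩
    rw [stp1] at w1
    have w : nb B (x, y) 1 = -nb B (x, y) 0 := by rw [w0, w1]; exact Prod.ext (by simp only [Prod.fst_neg]; ring) (by simp only [Prod.snd_neg]; ring)
    rw [Fin.sum_univ_four, J0_in h1 o0, J0_in h1 o1, J0_out h1 o2, J0_out h1 o3]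
    have ho : outf L' A φ (x, y) = _ := rfl
    conv_rhs at ho => unfold outf
    rw [Fin.sum_univ_four, if_neg o0, if_neg o1, if_pos o2, if_pos o3] at ho
    rw [w, h.outf_neg]
    linarith
  · have o0 : OutW L' (x, y) 0 := by unfold OutW; rw [stp0]; simp only; omega
    have o1 : ¬ OutW L' (x, y) 1 := by unfold OutW; rw [stp1]; simp only; omega
    have o2 : ¬ OutW L' (x, y) 2 := by unfold OutW; rw [stp2]; simp only; omega
    have o3 : OutW L' (x, y) 3 := by unfold OutW; rw [stp3]; simp only; omega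
    have w1 := (h.near (x, y) h1 1).2.2.1 ⟨by rw [stp1]; simp only; omega, abs_lt.2 ⟨by simp only; omega, by simp only; omega⟩⟩
    rw [stp1] at w1
    have w2 := (h.near (x, y) h1 2).2.2.1 ⟨by rw [stp2]; simp only; omega, abs_lt.2 ⟨by simp only; omega, by simp only; omega⟩⟩
    rw [stp2] at w2
    have w : nb B (x, y) 2 = -nb B (x, y) 1 := by rw [w1, w2]; exact Prod.ext (by simp only [Prod.fst_neg]; ring) (by simp only [Prod.snd_neg]; ring)
    rw [Fin.sum_univ_four, J0_out h1 o0, J0_in h1 o1, J0_in h1 o2, J0_out h1 o3]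
    have ho : outf L' A φ (x, y) = _ := rfl
    conv_rhs at ho => unfold outf
    rw [Fin.sum_univ_four, if_pos o0, if_neg o1, if_neg o2, if_pos o3] at ho
    rw [w, h.outf_neg]
    linarith
  · have o0 : ¬ OutW L' (x, y) 0 := by unfold OutW; rw [stp0]; simp only; omega
    have o1 : OutW L' (x, y) 1 := by unfold OutW; rw [stp1]; simp only; omega
    have o2 : OutW L' (x, y) 2 := by unfold OutW; rw [stp2]; simp only; omega
    have o3 : ¬ OutW L' (x, y) 3 := by unfold OutW; rw [stp3]; simp only; omega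
    have w0 := (h.near (x, y) h1 0).2.2.1 ⟨by rw [stp0]; simp only; omega, abs_lt.2 ⟨by simp only; omega, by simp only; omega⟩⟩
    rw [stp0] at w0
    have w3 := (h.near (x, y) h1 3).2.2.1 ⟨by rw [stp3]; simp only; omega, abs_lt.2 ⟨by simp only; omega, by simp only; omega⟩⟩
    rw [stp3] at w3
    have w : nb B (x, y) 3 = -nb B (x, y) 0 := by rw [w0, w3]; exact Prod.ext (by simp only [Prod.fst_neg]; ring) (by simp only [Prod.snd_neg]; ring)
    rw [Fin.sum_univ_four, J0_in h1 o0, J0_out h1 o1, J0_out h1 o2, J0_in h1 o3]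
    have ho : outf L' A φ (x, y) = _ := rfl
    conv_rhs at ho => unfold outf
    rw [Fin.sum_univ_four, if_neg o0, if_pos o1, if_pos o2, if_neg o3] at ho
    rw [w, h.outf_neg]
    linarith
  · have o0 : OutW L' (x, y) 0 := by unfold OutW; rw [stp0]; simp only; omega
    have o1 : OutW L' (x, y) 1 := by unfold OutW; rw [stp1]; simp only; omega
    have o2 : ¬ OutW L' (x, y) 2 := by unfold OutW; rw [stp2]; simp only; omega
    have o3 : OutW L' (x, y) 3 := by unfold OutW; rw [stp3]; simp only; omega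
    have w := (h.near (x, y) h1 2).2.2.2 ⟨by rw [stp2]; simp only; omega, by rw [stp2]; simp only; omega⟩
    rw [Fin.sum_univ_four, J0_out h1 o0, J0_out h1 o1, J0_in h1 o2, J0_out h1 o3]
    have ho : outf L' A φ (x, y) = _ := rfl
    conv_rhs at ho => unfold outf
    rw [Fin.sum_univ_four, if_pos o0, if_pos o1, if_neg o2, if_pos o3] at ho
    rw [w, h.outf_neg]
    linarith
  · have o0 : OutW L' (x, y) 0 := by unfold OutW; rw [stp0]; simp only; omega
    have o1 : OutW L' (x, y) 1 := by unfold OutW; rw [stp1]; simp only; omega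
    have o2 : OutW L' (x, y) 2 := by unfold OutW; rw [stp2]; simp only; omega
    have o3 : ¬ OutW L' (x, y) 3 := by unfold OutW; rw [stp3]; simp only; omega
    have w := (h.near (x, y) h1 3).2.2.2 ⟨by rw [stp3]; simp only; omega, by rw [stp3]; simp only; omega⟩
    rw [Fin.sum_univ_four, J0_out h1 o0, J0_out h1 o1, J0_out h1 o2, J0_in h1 o3]
    have ho : outf L' A φ (x, y) = _ := rfl
    conv_rhs at ho => unfold outf
    rw [Fin.sum_univ_four, if_pos o0, if_pos o1, if_pos o2, if_neg o3] at ho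
    rw [w, h.outf_neg]
    linarith
  · have o0 : OutW L' (x, y) 0 := by unfold OutW; rw [stp0]; simp only; omega
    have o1 : ¬ OutW L' (x, y) 1 := by unfold OutW; rw [stp1]; simp only; omega
    have o2 : OutW L' (x, y) 2 := by unfold OutW; rw [stp2]; simp only; omega
    have o3 : OutW L' (x, y) 3 := by unfold OutW; rw [stp3]; simp only; omega
    have w := (h.near (x, y) h1 1).2.2.2 ⟨by rw [stp1]; simp only; omega, by rw [stp1]; simp only; omega⟩
    rw [Fin.sum_univ_four, J0_out h1 o0, J0_in h1 o1, J0_out h1 o2, J0_out h1 o3]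
    have ho : outf L' A φ (x, y) = _ := rfl
    conv_rhs at ho => unfold outf
    rw [Fin.sum_univ_four, if_pos o0, if_neg o1, if_pos o2, if_pos o3] at ho
    rw [w, h.outf_neg]
    linarith
  · have o0 : ¬ OutW L' (x, y) 0 := by unfold OutW; rw [stp0]; simp only; omega
    have o1 : OutW L' (x, y) 1 := by unfold OutW; rw [stp1]; simp only; omega
    have o2 : OutW L' (x, y) 2 := by unfold OutW; rw [stp2]; simp only; omega
    have o3 : OutW L' (x, y) 3 := by unfold OutW; rw [stp3]; simp only; omega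
    have w := (h.near (x, y) h1 0).2.2.2 ⟨by rw [stp0]; simp only; omega, by rw [stp0]; simp only; omega⟩
    rw [Fin.sum_univ_four, J0_in h1 o0, J0_out h1 o1, J0_out h1 o2, J0_out h1 o3]
    have ho : outf L' A φ (x, y) = _ := rfl
    conv_rhs at ho => unfold outf
    rw [Fin.sum_univ_four, if_neg o0, if_pos o1, if_pos o2, if_pos o3] at ho
    rw [w, h.outf_neg]
    linarith

theorem Ctx.J_div (h : Ctx Lm M' N' L' A B a b φ) {v : Pt} (hv : v ∈ B) :
    ∑ e, Jf M' N' L' A B φ v e = 0 := by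
  obtain ⟨i, j, hij⟩ := exists_red M' N' v
  have huB : red M' N' v ∈ B := by
    rw [hij, h.memB] at hv
    exact hv
  unfold Jf
  by_cases h1 : rho (red M' N' v) = (L' : ℤ)
  · exact h.J0_div h1
  · rw [← h.harm _ (h.sub huB)]
    refine Finset.sum_congr rfl fun e _ => ?_
    unfold J0
    exact if_neg fun h2 => h1 h2.1

end

end Pool.Agent.R359.PP7
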