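import Pool.Agent.R359.PP7.Base

/-!
MP_68f671 PP-P7: the cut-off, orthogonality, counting.
-/

set_option autoImplicit false

namespace Pool.Agent.R359.PP7

open Pool.Agent.R196.PP

/-- the cut-off -/
noncomputable def zt (L' : ℕ) (t : ℤ) : ℝ := max 0 (min 1 ((2 * (L' : ℝ) - t) / L'))

theorem zt_nonneg (L' : ℕ) (t : ℤ) : 0 ≤ zt L' t := le_max_left _ _

theorem zt_le (L' : ℕ) (t : ℤ) : zt L' t ≤ 1 := max_le zero_le_one (min_le_left _ _)

theorem zt_one {L' : ℕ} (hL : 0 < L') {t : ℤ} (ht : t ≤ L') : zt L' t = 1 := by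
  unfold zt
  have h1 : (0 : ℝ) < L' := by exact_mod_cast hL
  have h2 : (t : ℝ) ≤ L' := by exact_mod_cast ht
  have h3 : 1 ≤ (2 * (L' : ℝ) - t) / L' := by
    rw [le_div_iff₀ h1]
    linarith
  rw [min_eq_left h3]
  exact max_eq_right zero_le_one

theorem zt_zero {L' : ℕ} (hL : 0 < L') {t : ℤ} (ht : 2 * (L' : ℤ) ≤ t) : zt L' t = 0 := by
  unfold zt
  have h1 : (0 : ℝ) < L' := by exact_mod_cast hL
  have h2 : 2 * (L' : ℝ) ≤ t := by exact_mod_cast ht
  have h3 : (2 * (L' : ℝ) - t) / L' ≤ 0 := by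
    rw [div_le_iff₀ h1]
    linarith
  exact max_eq_left ((min_le_right _ _).trans h3)

theorem zt_lip {L' : ℕ} (hL : 0 < L') (t t' : ℤ) : |zt L' t - zt L' t'| ≤ |((t - t' : ℤ) : ℝ)| / L' := by
  unfold zt
  have h1 : (0 : ℝ) < L' := by exact_mod_cast hL
  refine (abs_max_sub_max_le_max _ _ _ _).trans ?_
  refine max_le ?_ ?_
  · rw [sub_self, abs_zero]
    positivity
  · refine (abs_min_sub_min_le_max _ _ _ _).trans ?_
    refine max_le ?_ ?_
    · rw [sub_self, abs_zero]
      positivity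
    · rw [← sub_div, abs_div, abs_of_pos h1]
      refine div_le_div_of_nonneg_right ?_ h1.le
      rw [← abs_neg]
      apply le_of_eq
      congr 1
      push_cast
      ring

section
variable {Lm M' N' L' : ℕ} {A B : Set Pt} {a b : ℝ} {φ : Pt → ℝ}

/-- the cut-off part -/
noncomputable def gf (M' N' L' : ℕ) (φ : Pt → ℝ) (v : Pt) : ℝ :=
  zt L' (rho (red M' N' v)) * φ (red M' N' v)

/-- the test function -/
noncomputable def Ph (M' N' L' : ℕ) (φ : Pt → ℝ) (v : Pt) : ℝ := φ v - gf M' N' L' φ v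

theorem gf_sh (i j : ℤ) (v : Pt) : gf M' N' L' φ (sh M' N' i j v) = gf M' N' L' φ v := by
  unfold gf
  rw [red_sh]

theorem Ctx.Ph_sh (h : Ctx Lm M' N' L' A B a b φ) (i j : ℤ) (v : Pt) :
    Ph M' N' L' φ (sh M' N' i j v) = Ph M' N' L' φ v + (a * (i * M') + b * (j * N')) := by
  unfold Ph
  rw [gf_sh, h.phs]
  ring

/-- the defect -/
noncomputable def Ff (M' N' L' : ℕ) (A B : Set Pt) (φ : Pt → ℝ) (v : Pt) (e : Fin 4) : ℝ :=
  (Ph M' N' L' φ (nb B v e) - Ph M' N' L' φ v) - Jf M' N' L' A B φ v e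

theorem Ctx.F_sh (h : Ctx Lm M' N' L' A B a b φ) (i j : ℤ) (v : Pt) (e : Fin 4) :
    Ff M' N' L' A B φ (sh M' N' i j v) e = Ff M' N' L' A B φ v e := by
  unfold Ff
  rw [h.nbsB, h.Ph_sh, h.Ph_sh, h.J_sh]
  ring

theorem rho_step (u : Pt) (k : ℕ) (e : Fin 4) :
    rho (u + (k : ℤ) • stp e) ≤ rho u + k ∧ rho u ≤ rho (u + (k : ℤ) • stp e) + k := by
  obtain ⟨x, y⟩ := u
  obtain ⟨s1, s2, hs, -, hs1, hs2⟩ := stp_cases e
  rw [hs]
  unfold rho
  simp only [Prod.smul_mk, Prod.mk_add_mk, smul_eq_mul]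
  rw [abs_eq_max_neg, abs_eq_max_neg, abs_eq_max_neg, abs_eq_max_neg]
  rcases hs1 with rfl | rfl <;> rcases hs2 with rfl | rfl <;> omega

theorem Ctx.F_red (h : Ctx Lm M' N' L' A B a b φ) (v : Pt) (e : Fin 4) :
    Ff M' N' L' A B φ v e = Ff M' N' L' A B φ (red M' N' v) e := by
  obtain ⟨i, j, hij⟩ := exists_red M' N' v
  conv_lhs => rw [hij]
  exact h.F_sh i j _ e

theorem Ctx.mem_red (h : Ctx Lm M' N' L' A B a b φ) {v : Pt} (hv : v ∈ B) :
    red M' N' v ∈ B := by
  obtain ⟨i, j, hij⟩ := exists_red M' N' v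
  rw [hij, h.memB] at hv
  exact hv

theorem Ctx.gf_zero (h : Ctx Lm M' N' L' A B a b φ) {v : Pt}
    (hv : 2 * (L' : ℤ) ≤ rho (red M' N' v)) : gf M' N' L' φ v = 0 := by
  unfold gf
  have := h.gL
  rw [zt_zero (by omega) hv, zero_mul]

theorem Ctx.F_out (h : Ctx Lm M' N' L' A B a b φ) {u : Pt} (hred : red M' N' u = u) (hu : u ∈ B)
    {e : Fin 4} (hin : ¬ InW L' u e) :
    Ff M' N' L' A B φ u e = gf M' N' L' φ u - gf M' N' L' φ (nb A u e) := by
  classical
  unfold Ff Ph Jf J0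
  rw [h.same hred hu hin, hred, if_neg hin]
  unfold grad
  ring

theorem Ctx.F_zero (h : Ctx Lm M' N' L' A B a b φ) {v : Pt} (hv : v ∈ B)
    (hr : 3 * (L' : ℤ) < rho (red M' N' v)) (e : Fin 4) : Ff M' N' L' A B φ v e = 0 := by
  rw [h.F_red]
  set u := red M' N' v with hu
  have hured : red M' N' u = u := h.red_red v
  have huB : u ∈ B := h.mem_red hv
  have hL := h.gL
  have hin : ¬ InW L' u e := by
    intro hc
    have := hc.1
    omega
  rw [h.F_out hured huB hin, h.gf_zero (by rw [hured]; omega), h.gf_zero, sub_zero]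
  by_contra hcon
  obtain ⟨k, hk1, hk2, hk⟩ := h.nbk u e
  obtain ⟨i', j', hij'⟩ := exists_red M' N' (nb A u e)
  set z := red M' N' (nb A u e) with hz
  have ee : e + 2 + 2 = e := by
    rw [add_assoc]
    simp
  have h1 : u = sh M' N' i' j' (z + (k : ℤ) • stp (e + 2)) := by
    have h2 : u = nb A u e + (k : ℤ) • stp (e + 2) := by
      rw [hk, stp_neg]
      simp
    rw [h2, hij']
    unfold sh
    ext
    · simp only [Prod.fst_add]
      ring
    · simp only [Prod.snd_add]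
      ring
  have h2 := rho_step z k (e + 2)
  have h3 : red M' N' (z + (k : ℤ) • stp (e + 2)) = z + (k : ℤ) • stp (e + 2) :=
    h.red_of (by omega)
  have h4 : u = z + (k : ℤ) • stp (e + 2) := by
    rw [← h3, ← hured]
    conv_lhs => rw [h1]
    rw [red_sh]
  rw [← h4] at h2
  omega

theorem Ctx.F_bd (h : Ctx Lm M' N' L' A B a b φ) {v : Pt} (hv : v ∈ B) (e : Fin 4) :
    |Ff M' N' L' A B φ v e| ≤ (48 * Lm + 5) * (|a| + |b|) := by
  classical
  have hτ : 0 ≤ |a| + |b| := by positivity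
  have hLm : (0 : ℝ) ≤ Lm := Nat.cast_nonneg _
  by_cases hr : 3 * (L' : ℤ) < rho (red M' N' v)
  · rw [h.F_zero hv hr, abs_zero]
    positivity
  rw [h.F_red]
  set u := red M' N' v with hu
  have hured : red M' N' u = u := h.red_red v
  have huB : u ∈ B := h.mem_red hv
  have hL := h.gL
  have hL0 : 0 < L' := by omega
  by_cases hin : InW L' u e
  · obtain ⟨h1, -⟩ := h.jump hin
    have e1 : Ph M' N' L' φ u = 0 := by
      unfold Ph gf
      rw [hured, zt_one hL0 (by rw [hin.1]), one_mul, sub_self]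
    have e2 : Ph M' N' L' φ (nb B u e) = 0 := by
      unfold Ph gf
      rw [h.red_of (by rw [h1.1]; omega), zt_one hL0 (by rw [h1.1]), one_mul, sub_self]
    unfold Ff
    rw [e1, e2, sub_zero, zero_sub, abs_neg]
    refine (h.J_bd huB e).trans ?_
    nlinarith
  · rw [h.F_out hured huB hin]
    obtain ⟨k, hk1, hk2, hk⟩ := h.nbk u e
    have h2 := rho_step u k e
    rw [← hk] at h2
    have h3 : red M' N' (nb A u e) = nb A u e := h.red_of (by omega)
    unfold gf
    rw [hured, h3]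
    have e1 : zt L' (rho u) * φ u - zt L' (rho (nb A u e)) * φ (nb A u e) =
        -(zt L' (rho (nb A u e)) * grad (nb A) φ u e) +
          (zt L' (rho u) - zt L' (rho (nb A u e))) * φ u := by
      unfold grad
      ring
    rw [e1]
    have hLr : (0 : ℝ) < L' := by exact_mod_cast hL0
    have h4 : |zt L' (rho u) - zt L' (rho (nb A u e))| ≤ (2 * Lm + 1) / L' := by
      refine (zt_lip hL0 _ _).trans ?_
      refine div_le_div_of_nonneg_right ?_ hLr.le
      have h5 : |rho u - rho (nb A u e)| ≤ 2 * Lm + 1 := by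
        rw [abs_le]
        omega
      rw [← Int.cast_abs]
      exact_mod_cast h5
    have h5 : |φ u| ≤ 4 * L' * (|a| + |b|) := by
      have h6 := h.bd u (h.sub huB)
      have h7 : |u.1| ≤ 3 * L' ∧ |u.2| ≤ 3 * L' := rho_le.1 (by omega)
      have h7a : |(u.1 : ℝ)| ≤ 3 * L' := by
        rw [← Int.cast_abs]
        exact_mod_cast h7.1
      have h7b : |(u.2 : ℝ)| ≤ 3 * L' := by
        rw [← Int.cast_abs]
        exact_mod_cast h7.2
      have h8 : |a * u.1 + b * u.2| ≤ 3 * L' * (|a| + |b|) := by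
        refine (abs_add_le _ _).trans ?_
        rw [abs_mul, abs_mul]
        have := mul_le_mul_of_nonneg_left h7a (abs_nonneg a)
        have := mul_le_mul_of_nonneg_left h7b (abs_nonneg b)
        nlinarith
      have h9 : 5 * (Lm : ℝ) ≤ L' := by
        have : 5 * Lm ≤ L' := by omega
        exact_mod_cast this
      have h10 : φ u = (φ u - (a * u.1 + b * u.2)) + (a * u.1 + b * u.2) := by ring
      rw [h10]
      refine (abs_add_le _ _).trans ?_
      have := mul_le_mul_of_nonneg_right h9 hτ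
      linarith
    calc |(-(zt L' (rho (nb A u e)) * grad (nb A) φ u e) +
          (zt L' (rho u) - zt L' (rho (nb A u e))) * φ u)|
        ≤ |-(zt L' (rho (nb A u e)) * grad (nb A) φ u e)| +
          |(zt L' (rho u) - zt L' (rho (nb A u e))) * φ u| := abs_add_le _ _
      _ ≤ 1 * ((12 * Lm + 1) * (|a| + |b|)) + ((2 * Lm + 1) / L') * (4 * L' * (|a| + |b|)) := by
          rw [abs_neg, abs_mul, abs_mul, abs_of_nonneg (zt_nonneg L' (rho (nb A u e)))]
          refine add_le_add ?_ ?_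
          · exact mul_le_mul (zt_le _ _) (h.grad_bd (h.sub huB) e) (abs_nonneg _) zero_le_one
          · exact mul_le_mul h4 h5 (abs_nonneg _) (by positivity)
      _ = (20 * Lm + 5) * (|a| + |b|) := by
          field_simp
          ring
      _ ≤ _ := by nlinarith

/-- orthogonality of gradients and flows -/
theorem Ctx.orth (h : Ctx Lm M' N' L' A B a b φ) {r : Pt → ℝ} (hr : Per M' N' r)
    {J : Pt → Fin 4 → ℝ} (hJp : ∀ e, Per M' N' (fun v => J v e))
    (hanti : ∀ v ∈ B, ∀ e, J (nb B v e) (e + 2) = -J v e) (hdiv : ∀ v ∈ B, ∑ e, J v e = 0) :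
    csum M' N' B (fun v => ∑ e, (r (nb B v e) - r v) * J v e) = 0 := by
  classical
  have hper : ∀ e : Fin 4, Per M' N' (fun v => r v * J v (e + 2)) := by
    intro e
    refine ⟨fun v => ?_, fun v => ?_⟩
    · have h1 := hr.1 v
      have h2 := (hJp (e + 2)).1 v
      simp only at h2 ⊢
      rw [h1, h2]
    · have h1 := hr.2 v
      have h2 := (hJp (e + 2)).2 v
      simp only at h2 ⊢
      rw [h1, h2]
  have hre : ∀ F : Fin 4 → ℝ, ∑ e, F e = ∑ e, F (e + 2) := fun F =>
    (Fintype.sum_equiv (Equiv.addRight (2 : Fin 4)) (fun e => F (e + 2)) F (fun _ => rfl)).symm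
  have h1 : ∀ e : Fin 4, ∑ v ∈ (cell M' N').filter (· ∈ B), r (nb B v e) * J v e =
      -∑ v ∈ (cell M' N').filter (· ∈ B), r v * J v (e + 2) := by
    intro e
    have h2 := h.pres _ (hper e) e
    unfold csum at h2
    rw [← h2, ← Finset.sum_neg_distrib]
    refine Finset.sum_congr rfl fun v hv => ?_
    have hvB : v ∈ B := (Finset.mem_filter.1 hv).2
    rw [hanti v hvB e]
    ring
  unfold csum
  have h3 : ∀ v ∈ (cell M' N').filter (· ∈ B), ∑ e, (r (nb B v e) - r v) * J v e =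
      ∑ e, r (nb B v e) * J v e := by
    intro v hv
    have hvB : v ∈ B := (Finset.mem_filter.1 hv).2
    simp only [sub_mul]
    rw [Finset.sum_sub_distrib, ← Finset.mul_sum, hdiv v hvB, mul_zero, sub_zero]
  rw [Finset.sum_congr rfl h3, Finset.sum_comm, Finset.sum_congr rfl fun e _ => h1 e,
    Finset.sum_neg_distrib, Finset.sum_comm, neg_eq_zero]
  refine Finset.sum_eq_zero fun v hv => ?_
  have hvB : v ∈ B := (Finset.mem_filter.1 hv).2
  rw [← Finset.mul_sum, ← hre, hdiv v hvB, mul_zero]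

end

/-- counting modulo the periods -/
theorem count_le (M' N' : ℕ) (U T : Finset Pt) (hT : T ⊆ cell M' N')
    (hU : ∀ v ∈ T, ∃ i j : ℤ, ((v.1 - i * M', v.2 - j * N') : Pt) ∈ U) : T.card ≤ U.card := by
  choose! i j hij using hU
  refine Finset.card_le_card_of_injOn (fun v => (v.1 - i v * M', v.2 - j v * N')) hij ?_
  intro v hv w hw hvw
  have hv' := hT hv
  have hw' := hT hw
  unfold cell at hv' hw'
  rw [Finset.mem_product, Finset.mem_Ico, Finset.mem_Ico] at hv' hw'
  simp only [Prod.mk.injEq] at hvw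
  have e1 : v.1 % (M' : ℤ) = v.1 := Int.emod_eq_of_lt hv'.1.1 hv'.1.2
  have e2 : w.1 % (M' : ℤ) = w.1 := Int.emod_eq_of_lt hw'.1.1 hw'.1.2
  have e3 : v.2 % (N' : ℤ) = v.2 := Int.emod_eq_of_lt hv'.2.1 hv'.2.2
  have e4 : w.2 % (N' : ℤ) = w.2 := Int.emod_eq_of_lt hw'.2.1 hw'.2.2
  have f1 : v.1 = w.1 + (i v - i w) * M' := by linarith [hvw.1]
  have f2 : v.2 = w.2 + (j v - j w) * N' := by linarith [hvw.2]
  ext
  · rw [← e1, ← e2, f1, Int.add_mul_emod_self_right]
  · rw [← e3, ← e4, f2, Int.add_mul_emod_self_right]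

theorem P7'_holds : P7' := by
  classical
  intro M' N' L' h1 h2 h3 A
  unfold csum
  have e1 : ∑ v ∈ (cell M' N').filter (· ∈ A), Set.indicator (frame M' N' L') (fun _ => (1 : ℝ)) v =
      ((((cell M' N').filter (· ∈ A)).filter (· ∈ frame M' N' L')).card : ℝ) := by
    rw [Finset.card_filter]
    push_cast
    refine Finset.sum_congr rfl fun v _ => ?_
    by_cases hv : v ∈ frame M' N' L'
    · simp [hv]
    · simp [hv]
  rw [e1]
  set U : Finset Pt := (Finset.Icc (-(L' : ℤ)) L' ×ˢ Finset.Icc (-(L' : ℤ)) L') \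
    (Finset.Ioo (-(L' : ℤ)) L' ×ˢ Finset.Ioo (-(L' : ℤ)) L') with hU
  have hUc : U.card = 8 * L' := by
    rw [hU, Finset.card_sdiff_of_subset]
    · rw [Finset.card_product, Finset.card_product, Int.card_Icc, Int.card_Ioo]
      have a1 : ((L' : ℤ) + 1 - -(L' : ℤ)).toNat = 2 * L' + 1 := by omega
      have a2 : ((L' : ℤ) - -(L' : ℤ) - 1).toNat = 2 * L' - 1 := by omega
      rw [a1, a2]
      obtain ⟨m, rfl⟩ : ∃ m, L' = m + 1 := ⟨L' - 1, by omega⟩
      have a3 : 2 * (m + 1) - 1 = 2 * m + 1 := by omega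
      rw [a3]
      apply Nat.sub_eq_of_eq_add
      ring
    · intro v hv
      rw [Finset.mem_product, Finset.mem_Ioo, Finset.mem_Ioo] at hv
      rw [Finset.mem_product, Finset.mem_Icc, Finset.mem_Icc]
      omega
  have h4 : (((cell M' N').filter (· ∈ A)).filter (· ∈ frame M' N' L')).card ≤ U.card := by
    refine count_le M' N' U _ ?_ ?_
    · intro v hv
      exact (Finset.mem_filter.1 (Finset.mem_filter.1 hv).1).1
    · intro v hv
      obtain ⟨i, j, hij⟩ := (Finset.mem_filter.1 hv).2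
      refine ⟨i, j, ?_⟩
      rw [hU, Finset.mem_sdiff, Finset.mem_product, Finset.mem_product, Finset.mem_Icc,
        Finset.mem_Icc, Finset.mem_Ioo, Finset.mem_Ioo]
      rw [abs_eq_max_neg, abs_eq_max_neg] at hij
      simp only
      omega
  rw [hUc] at h4
  exact_mod_cast h4

end Pool.Agent.R359.PP7
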